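import Mathlib

/-!
First-order definable predicates, general closure properties, and the case of rings.
-/

set_option autoImplicit false

namespace Pool.Agent.X223.Dfn

open FirstOrder FirstOrder.Language

section general

variable (L : FirstOrder.Language.{0, 0}) {M : Type} [L.Structure M] {Γ Δ : Type}

/-- A predicate on tuples indexed by `Γ` which is defined by a first-order formula. -/
def Df (R : (Γ → M) → Prop) : Prop := ∃ φ : L.Formula Γ, ∀ v, φ.Realize v ↔ R v

/-- A function on tuples indexed by `Γ` which is given by a term. -/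
def Tm (f : (Γ → M) → M) : Prop := ∃ t : L.Term Γ, ∀ v, t.realize v = f v

variable {L}

theorem Df.of_iff {R S : (Γ → M) → Prop} (h : Df L R) (hRS : ∀ v, R v ↔ S v) : Df L S := by
  obtain ⟨φ, h⟩ := h
  exact ⟨φ, fun v => (h v).trans (hRS v)⟩

theorem Df.not {R : (Γ → M) → Prop} (h : Df L R) : Df L fun v => ¬ R v := by
  obtain ⟨φ, h⟩ := h
  exact ⟨φ.not, fun v => by rw [Formula.realize_not, h]⟩

theorem Df.and {R S : (Γ → M) → Prop} (h : Df L R) (h' : Df L S) :
    Df L fun v => R v ∧ S v := by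
  obtain ⟨φ, h⟩ := h
  obtain ⟨ψ, h'⟩ := h'
  exact ⟨φ ⊓ ψ, fun v => by rw [Formula.realize_inf, h, h']⟩

theorem Df.or {R S : (Γ → M) → Prop} (h : Df L R) (h' : Df L S) :
    Df L fun v => R v ∨ S v := by
  obtain ⟨φ, h⟩ := h
  obtain ⟨ψ, h'⟩ := h'
  exact ⟨φ ⊔ ψ, fun v => by rw [Formula.realize_sup, h, h']⟩

theorem Df.imp {R S : (Γ → M) → Prop} (h : Df L R) (h' : Df L S) :
    Df L fun v => R v → S v := by
  obtain ⟨φ, h⟩ := h
  obtain ⟨ψ, h'⟩ := h'
  exact ⟨φ.imp ψ, fun v => by rw [Formula.realize_imp, h, h']⟩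

theorem Df.iff {R S : (Γ → M) → Prop} (h : Df L R) (h' : Df L S) :
    Df L fun v => (R v ↔ S v) := by
  obtain ⟨φ, h⟩ := h
  obtain ⟨ψ, h'⟩ := h'
  exact ⟨φ.iff ψ, fun v => by rw [Formula.realize_iff, h, h']⟩

theorem Df.true' : Df L (fun _ : Γ → M => True) := ⟨⊤, fun v => by simp⟩

theorem Df.false' : Df L (fun _ : Γ → M => False) := ⟨⊥, fun v => by simp⟩

theorem Df.const (p : Prop) : Df L (fun _ : Γ → M => p) := by
  by_cases h : p
  · exact Df.true'.of_iff fun v => by simp [h]
  · exact Df.false'.of_iff fun v => by simp [h]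

theorem Df.relabel {R : (Γ → M) → Prop} (h : Df L R) (f : Γ → Δ) :
    Df L fun v : Δ → M => R fun i => v (f i) := by
  obtain ⟨φ, h⟩ := h
  refine ⟨φ.relabel f, fun v => ?_⟩
  rw [Formula.realize_relabel, h]
  rfl

theorem Df.ex {R : (Γ → M) → M → Prop}
    (h : Df L fun v : Γ ⊕ Unit → M => R (fun i => v (Sum.inl i)) (v (Sum.inr ()))) :
    Df L fun v => ∃ x, R v x := by
  obtain ⟨φ, h⟩ := h
  refine ⟨φ.iExs Unit, fun v => ?_⟩
  rw [Formula.realize_iExs]
  constructor
  · rintro ⟨x, hx⟩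
    rw [h] at hx
    exact ⟨x (), hx⟩
  · rintro ⟨x, hx⟩
    refine ⟨fun _ => x, ?_⟩
    rw [h]
    exact hx

theorem Df.all {R : (Γ → M) → M → Prop}
    (h : Df L fun v : Γ ⊕ Unit → M => R (fun i => v (Sum.inl i)) (v (Sum.inr ()))) :
    Df L fun v => ∀ x, R v x := by
  refine (Df.ex (R := fun v x => ¬ R v x) h.not).not.of_iff fun v => ?_
  push Not
  rfl

theorem Tm.var (i : Γ) : Tm L fun v : Γ → M => v i := ⟨Term.var i, fun _ => rfl⟩

theorem Tm.weak {f : (Γ → M) → M} (h : Tm L f) :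
    Tm L fun v : Γ ⊕ Unit → M => f fun i => v (Sum.inl i) := by
  obtain ⟨t, h⟩ := h
  refine ⟨t.relabel Sum.inl, fun v => ?_⟩
  rw [Term.realize_relabel, h]
  rfl

theorem Tm.last : Tm L fun v : Γ ⊕ Unit → M => v (Sum.inr ()) := Tm.var _

theorem Df.eq {f g : (Γ → M) → M} (hf : Tm L f) (hg : Tm L g) : Df L fun v => f v = g v := by
  obtain ⟨s, hs⟩ := hf
  obtain ⟨t, ht⟩ := hg
  refine ⟨s.equal t, fun v => ?_⟩
  rw [Formula.realize_equal, hs, ht]

/-- Definability in the sense of Mathlib, without parameters. -/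
theorem Df.definable {R : (Γ → M) → Prop} (h : Df L R) :
    (∅ : Set M).Definable L {v | R v} := by
  obtain ⟨φ, h⟩ := h
  rw [Set.empty_definable_iff]
  refine ⟨φ, ?_⟩
  ext v
  exact (h v).symm

end general

section ring

variable {M : Type} [CommRing M] {Γ : Type}

/-- A commutative ring as a structure for the language of rings. -/
noncomputable abbrev strR (M : Type) [CommRing M] : Language.ring.Structure M :=
  (FirstOrder.Ring.compatibleRingOfRing M).toStructure

attribute [local instance] strR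

theorem Tm.add {f g : (Γ → M) → M} (hf : Tm Language.ring f) (hg : Tm Language.ring g) :
    Tm Language.ring fun v => f v + g v := by
  obtain ⟨s, hs⟩ := hf
  obtain ⟨t, ht⟩ := hg
  refine ⟨Term.func (ringFunc.add : Language.ring.Functions 2) ![s, t], fun v => ?_⟩
  beta_reduce
  rw [← hs, ← ht]
  rfl

theorem Tm.mul {f g : (Γ → M) → M} (hf : Tm Language.ring f) (hg : Tm Language.ring g) :
    Tm Language.ring fun v => f v * g v := by
  obtain ⟨s, hs⟩ := hf
  obtain ⟨t, ht⟩ := hg
  refine ⟨Term.func (ringFunc.mul : Language.ring.Functions 2) ![s, t], fun v => ?_⟩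
  beta_reduce
  rw [← hs, ← ht]
  rfl

theorem Tm.neg {f : (Γ → M) → M} (hf : Tm Language.ring f) :
    Tm Language.ring fun v => - f v := by
  obtain ⟨s, hs⟩ := hf
  refine ⟨Term.func (ringFunc.neg : Language.ring.Functions 1) ![s], fun v => ?_⟩
  beta_reduce
  rw [← hs]
  rfl

theorem Tm.zero : Tm Language.ring fun _ : Γ → M => (0 : M) :=
  ⟨Term.func (ringFunc.zero : Language.ring.Functions 0) ![], fun _ => rfl⟩

theorem Tm.one : Tm Language.ring fun _ : Γ → M => (1 : M) :=
  ⟨Term.func (ringFunc.one : Language.ring.Functions 0) ![], fun _ => rfl⟩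

theorem Tm.sub {f g : (Γ → M) → M} (hf : Tm Language.ring f) (hg : Tm Language.ring g) :
    Tm Language.ring fun v => f v - g v := by
  obtain ⟨s, hs⟩ := hf.add hg.neg
  exact ⟨s, fun v => (hs v).trans (sub_eq_add_neg _ _).symm⟩

theorem Df.dvd {f g : (Γ → M) → M} (hf : Tm Language.ring f) (hg : Tm Language.ring g) :
    Df Language.ring fun v => f v ∣ g v := by
  refine (Df.ex (R := fun v x => g v = f v * x) ?_).of_iff fun v => Iff.rfl
  exact Df.eq hg.weak (hf.weak.mul Tm.last)

theorem Df.unit {f : (Γ → M) → M} (hf : Tm Language.ring f) :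
    Df Language.ring fun v => IsUnit (f v) :=
  (Df.dvd hf Tm.one).of_iff fun _ => isUnit_iff_dvd_one.symm

end ring

end Pool.Agent.X223.Dfn
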