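import Pool.Agent.X223.Dfn

/-!
Equality of degrees of polynomials over an algebraically closed field of characteristic zero,
expressed by ring operations and quantifiers over polynomials.
-/

set_option autoImplicit false

namespace Pool.Agent.X223.EqDeg

open Polynomial Pool.Agent.X223.Dfn FirstOrder FirstOrder.Language

variable {k : Type} [Field k]

/-- constants -/
def K (c : k[X]) : Prop := c = 0 ∨ IsUnit c

theorem K_iff {c : k[X]} : K c ↔ ∃ a : k, c = C a := by
  constructor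
  · rintro (h | h)
    · exact ⟨0, by rw [h, map_zero]⟩
    · obtain ⟨a, -, ha⟩ := Polynomial.isUnit_iff.1 h
      exact ⟨a, ha.symm⟩
  · rintro ⟨a, rfl⟩
    by_cases h : a = 0
    · left
      rw [h, map_zero]
    · right
      exact Polynomial.isUnit_C.2 (isUnit_iff_ne_zero.2 h)

/-- The polynomial `h` induces a bijection between the roots of `F` and of `G`, in the coordinate
`T`. -/
def Corr (T F G h : k[X]) : Prop :=
  (∀ a, K a → T - a ∣ F → ∃ b, K b ∧ T - a ∣ h - b ∧ T - b ∣ G) ∧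
  (∀ b, K b → T - b ∣ G → ∃ a, K a ∧ T - a ∣ F ∧ T - a ∣ h - b ∧
    ∀ a', K a' → T - a' ∣ F → T - a' ∣ h - b → a' = a)

/-- The definition of the equality of degrees. -/
def E (f g : k[X]) : Prop :=
  (f = 0 ∧ g = 0) ∨ (IsUnit f ∧ IsUnit g) ∨
    ((f ≠ 0 ∧ ¬ IsUnit f) ∧ (g ≠ 0 ∧ ¬ IsUnit g) ∧
      ∃ T c d h, (¬ IsUnit T ∧ ∀ a b, T = a * b → IsUnit a ∨ IsUnit b) ∧ K c ∧ K d ∧
        (∀ z, z * z ∣ f + c → IsUnit z) ∧ (∀ z, z * z ∣ g + d → IsUnit z) ∧
        Corr T (f + c) (g + d) h)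

theorem dvd_iff {T : k[X]} {α β : k} (hα : α ≠ 0) (hT : T = C α * X + C β) (a : k) (F : k[X]) :
    T - C a ∣ F ↔ F.eval ((a - β) / α) = 0 := by
  have h1 : T - C a = C α * (X - C ((a - β) / α)) := by
    rw [hT, mul_sub, ← C_mul, mul_div_cancel₀ _ hα, C_sub]
    ring
  have hu : IsUnit (C α : k[X]) := Polynomial.isUnit_C.2 (isUnit_iff_ne_zero.2 hα)
  rw [h1, hu.mul_left_dvd, dvd_iff_isRoot, IsRoot.def]

theorem natDegree_eq [IsAlgClosed k] [CharZero k] {T : k[X]} {α β : k} (hα : α ≠ 0)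
    (hT : T = C α * X + C β) {F : k[X]} (hF : Squarefree F) :
    F.natDegree = {a : k | T - C a ∣ F}.ncard := by
  classical
  have hF0 : F ≠ 0 := hF.ne_zero
  have h1 : F.roots.toFinset.card = F.natDegree := by
    rw [Multiset.toFinset_card_of_nodup (nodup_roots (PerfectField.separable_iff_squarefree.2 hF))]
    exact (splits_iff_card_roots.1 (IsAlgClosed.splits F))
  rw [← h1, ← Set.ncard_coe_finset]
  refine Set.ncard_congr (fun x _ => α * x + β) ?_ ?_ ?_
  · intro x hx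
    rw [Finset.mem_coe, Multiset.mem_toFinset, mem_roots hF0] at hx
    show T - C (α * x + β) ∣ F
    rw [dvd_iff hα hT]
    have : (α * x + β - β) / α = x := by field_simp; ring
    rw [this]
    exact hx
  · intro x y _ _ h
    have : α * x = α * y := add_right_cancel h
    exact mul_left_cancel₀ hα this
  · intro a ha
    refine ⟨(a - β) / α, ?_, ?_⟩
    · rw [Finset.mem_coe, Multiset.mem_toFinset, mem_roots hF0]
      exact (dvd_iff hα hT a F).1 ha
    · field_simp
      ring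

theorem exists_squarefree [IsAlgClosed k] [CharZero k] {f : k[X]} (hf : 0 < f.natDegree) :
    ∃ c : k, Squarefree (f + C c) := by
  classical
  have hd : derivative f ≠ 0 := by
    intro h
    have := derivative_eq_zero.1 h
    omega
  obtain ⟨c, hc⟩ := Set.Infinite.exists_notMem_finset (Set.infinite_univ (α := k))
    ((derivative f).roots.toFinset.image fun r => - f.eval r)
  refine ⟨c, ?_⟩
  rw [← PerfectField.separable_iff_squarefree]
  rw [Polynomial.separable_def, derivative_add, derivative_C, add_zero]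
  by_contra hcop
  obtain ⟨r, hr1, hr2⟩ : ∃ r, (f + C c).eval r = 0 ∧ (derivative f).eval r = 0 := by
    have h3 := hcop
    rw [Polynomial.isCoprime_iff_aeval_ne_zero_of_isAlgClosed k k] at h3
    push Not at h3
    obtain ⟨r, h4, h5⟩ := h3
    refine ⟨r, by simpa using h4, by simpa using h5⟩
  refine hc.2 ?_
  rw [Finset.mem_image]
  refine ⟨r, ?_, ?_⟩
  · rw [Multiset.mem_toFinset, mem_roots hd]
    exact hr2
  · rw [eval_add, eval_C] at hr1
    exact (eq_neg_of_add_eq_zero_right hr1).symm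

theorem of_corr [IsAlgClosed k] [CharZero k] {T F G h : k[X]} {α β : k} (hα : α ≠ 0)
    (hT : T = C α * X + C β) (hF : Squarefree F) (hG : Squarefree G) (hc : Corr T F G h) :
    F.natDegree = G.natDegree := by
  rw [natDegree_eq hα hT hF, natDegree_eq hα hT hG]
  have hev : ∀ a b : k, T - C a ∣ h - C b ↔ b = h.eval ((a - β) / α) := by
    intro a b
    rw [dvd_iff hα hT, eval_sub, eval_C, sub_eq_zero, eq_comm]
  refine Set.ncard_congr (fun a _ => h.eval ((a - β) / α)) ?_ ?_ ?_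
  · intro a ha
    obtain ⟨b, hb, h1, h2⟩ := hc.1 (C a) (K_iff.2 ⟨a, rfl⟩) ha
    obtain ⟨b, rfl⟩ := K_iff.1 hb
    rw [hev] at h1
    rw [← h1]
    exact h2
  · intro a a' ha ha' heq
    beta_reduce at heq
    obtain ⟨b, hb, h1, h2⟩ := hc.1 (C a) (K_iff.2 ⟨a, rfl⟩) ha
    obtain ⟨b, rfl⟩ := K_iff.1 hb
    obtain ⟨a₀, -, -, -, h3⟩ := hc.2 (C b) hb h2
    rw [hev] at h1
    have e1 : (C a : k[X]) = a₀ := h3 _ (K_iff.2 ⟨a, rfl⟩) ha ((hev _ _).2 h1)
    have e2 : (C a' : k[X]) = a₀ := h3 _ (K_iff.2 ⟨a', rfl⟩) ha' ((hev _ _).2 (h1.trans heq))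
    exact C_injective (e1.trans e2.symm)
  · intro b hb
    obtain ⟨a, ha, h1, h2, -⟩ := hc.2 (C b) (K_iff.2 ⟨b, rfl⟩) hb
    obtain ⟨a, rfl⟩ := K_iff.1 ha
    exact ⟨a, h1, ((hev _ _).1 h2).symm⟩

theorem exists_corr [IsAlgClosed k] {F G : k[X]} (hF : Squarefree F) (hG : Squarefree G)
    [CharZero k] (hd : F.natDegree = G.natDegree) : ∃ h, Corr X F G h := by
  classical
  have hF0 : F ≠ 0 := hF.ne_zero
  have hG0 : G ≠ 0 := hG.ne_zero
  have hc : ∀ H : k[X], Squarefree H → H.roots.toFinset.card = H.natDegree := by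
    intro H hH
    rw [Multiset.toFinset_card_of_nodup (nodup_roots (PerfectField.separable_iff_squarefree.2 hH))]
    exact (splits_iff_card_roots.1 (IsAlgClosed.splits H))
  have hcard : F.roots.toFinset.card = G.roots.toFinset.card := by rw [hc F hF, hc G hG, hd]
  let e := Finset.equivOfCardEq hcard
  let r : k → k := fun a => if h : a ∈ F.roots.toFinset then e ⟨a, h⟩ else 0
  have hr : ∀ a (h : a ∈ F.roots.toFinset), r a = e ⟨a, h⟩ := fun a h => dif_pos h
  have hmF : ∀ a, a ∈ F.roots.toFinset ↔ X - C a ∣ F := fun a => by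
    rw [Multiset.mem_toFinset, mem_roots hF0, dvd_iff_isRoot]
  have hmG : ∀ a, a ∈ G.roots.toFinset ↔ X - C a ∣ G := fun a => by
    rw [Multiset.mem_toFinset, mem_roots hG0, dvd_iff_isRoot]
  let h := Lagrange.interpolate F.roots.toFinset id r
  have hh : ∀ a (ha : a ∈ F.roots.toFinset), h.eval a = e ⟨a, ha⟩ := by
    intro a ha
    rw [← hr a ha]
    exact Lagrange.eval_interpolate_at_node (v := id) r (Set.injOn_id _) ha
  have hev : ∀ a b : k, X - C a ∣ h - C b ↔ h.eval a = b := by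
    intro a b
    rw [dvd_iff_isRoot, IsRoot.def, eval_sub, eval_C, sub_eq_zero]
  refine ⟨h, fun a ha h1 => ?_, fun b hb h1 => ?_⟩
  · obtain ⟨a, rfl⟩ := K_iff.1 ha
    rw [← hmF] at h1
    refine ⟨C (e ⟨a, h1⟩ : k), K_iff.2 ⟨_, rfl⟩, (hev _ _).2 (hh a h1), ?_⟩
    rw [← hmG]
    exact (e ⟨a, h1⟩).2
  · obtain ⟨b, rfl⟩ := K_iff.1 hb
    rw [← hmG] at h1
    have h2 := (e.symm ⟨b, h1⟩).2
    have h3 : h.eval (e.symm ⟨b, h1⟩ : k) = b := by
      rw [hh _ h2]
      simp
    refine ⟨C (e.symm ⟨b, h1⟩ : k), K_iff.2 ⟨_, rfl⟩, (hmF _).1 h2, (hev _ _).2 h3, ?_⟩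
    intro a' ha' h4 h5
    obtain ⟨a', rfl⟩ := K_iff.1 ha'
    rw [← hmF] at h4
    rw [hev, hh a' h4] at h5
    congr 1
    have h6 : e ⟨a', h4⟩ = ⟨b, h1⟩ := Subtype.ext h5
    rw [← h6, Equiv.symm_apply_apply]

theorem E_iff [IsAlgClosed k] [CharZero k] (f g : k[X]) : E f g ↔ f.degree = g.degree := by
  have hpos : ∀ f : k[X], f ≠ 0 → ¬ IsUnit f → 0 < f.natDegree := by
    intro f h1 h2
    by_contra h3
    have h4 : f.natDegree = 0 := by omega
    rw [natDegree_eq_zero] at h4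
    obtain ⟨a, rfl⟩ := h4
    refine h2 (Polynomial.isUnit_C.2 (isUnit_iff_ne_zero.2 ?_))
    rintro rfl
    exact h1 (map_zero _)
  constructor
  · rintro (⟨rfl, rfl⟩ | ⟨h1, h2⟩ | ⟨⟨hf, hf'⟩, ⟨hg, hg'⟩, T, c, d, h, hT, hc, hd, h1, h2, h3⟩)
    · rfl
    · rw [degree_eq_zero_of_isUnit h1, degree_eq_zero_of_isUnit h2]
    · obtain ⟨c, rfl⟩ := K_iff.1 hc
      obtain ⟨d, rfl⟩ := K_iff.1 hd
      have hT1 : T.degree = 1 := IsAlgClosed.degree_eq_one_of_irreducible k
        (irreducible_iff.2 ⟨hT.1, fun {a b} => hT.2 a b⟩)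
      have hT2 := eq_X_add_C_of_degree_eq_one hT1
      have hα : T.leadingCoeff ≠ 0 := by
        rw [Ne, leadingCoeff_eq_zero]
        rintro rfl
        simp at hT1
      have := of_corr hα hT2 h1 h2 h3
      rw [natDegree_add_C, natDegree_add_C] at this
      rw [degree_eq_natDegree hf, degree_eq_natDegree hg, this]
  · intro hfg
    by_cases hf : f = 0
    · left
      subst hf
      rw [degree_zero] at hfg
      exact ⟨rfl, degree_eq_bot.1 hfg.symm⟩
    have hg : g ≠ 0 := by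
      rintro rfl
      rw [degree_zero, degree_eq_bot] at hfg
      exact hf hfg
    right
    by_cases hfu : IsUnit f
    · left
      refine ⟨hfu, isUnit_iff_degree_eq_zero.2 ?_⟩
      rw [← hfg]
      exact degree_eq_zero_of_isUnit hfu
    have hgu : ¬ IsUnit g := by
      intro h
      rw [degree_eq_zero_of_isUnit h] at hfg
      exact hfu (isUnit_iff_degree_eq_zero.2 hfg)
    right
    refine ⟨⟨hf, hfu⟩, ⟨hg, hgu⟩, ?_⟩
    obtain ⟨c, hc⟩ := exists_squarefree (hpos f hf hfu)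
    obtain ⟨d, hd⟩ := exists_squarefree (hpos g hg hgu)
    obtain ⟨h, hh⟩ := exists_corr hc hd (by
      rw [natDegree_add_C, natDegree_add_C]
      exact natDegree_eq_of_degree_eq hfg)
    refine ⟨X, C c, C d, h, ⟨irreducible_X.1, fun a b hab => irreducible_X.2 hab⟩,
      K_iff.2 ⟨c, rfl⟩, K_iff.2 ⟨d, rfl⟩, hc, hd, hh⟩

end Pool.Agent.X223.EqDeg
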