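import Pool.Agent.X223.EqDeg

/-!
The relation of equal degree is first-order definable in the ring of polynomials.
-/

set_option autoImplicit false

namespace Pool.Agent.X223.EqDeg

open Polynomial Pool.Agent.X223.Dfn FirstOrder FirstOrder.Language

variable {k : Type} [Field k] {Γ : Type}

attribute [local instance] strR

theorem df_K {f : (Γ → k[X]) → k[X]} (hf : Tm Language.ring f) :
    Df Language.ring fun v => K (f v) :=
  Df.or (Df.eq hf Tm.zero) (Df.unit hf)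

theorem df_irr {f : (Γ → k[X]) → k[X]} (hf : Tm Language.ring f) :
    Df Language.ring fun v => (¬ IsUnit (f v) ∧ ∀ a b, f v = a * b → IsUnit a ∨ IsUnit b) := by
  refine Df.and (Df.unit hf).not ?_
  refine Df.all (R := fun v a => ∀ b, f v = a * b → IsUnit a ∨ IsUnit b) ?_
  refine Df.all (R := fun v b => f (fun i => v (Sum.inl i)) = v (Sum.inr ()) * b →
    IsUnit (v (Sum.inr ())) ∨ IsUnit b) ?_
  exact Df.imp (Df.eq hf.weak.weak (Tm.last.weak.mul Tm.last))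
    (Df.or (Df.unit Tm.last.weak) (Df.unit Tm.last))

theorem df_sqf {f : (Γ → k[X]) → k[X]} (hf : Tm Language.ring f) :
    Df Language.ring fun v => (∀ z, z * z ∣ f v → IsUnit z) := by
  refine Df.all (R := fun v z => z * z ∣ f v → IsUnit z) ?_
  exact Df.imp (Df.dvd (Tm.last.mul Tm.last) hf.weak) (Df.unit Tm.last)

theorem df_corr {T F G h : (Γ → k[X]) → k[X]} (hT : Tm Language.ring T) (hF : Tm Language.ring F)
    (hG : Tm Language.ring G) (hh : Tm Language.ring h) :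
    Df Language.ring fun v => Corr (T v) (F v) (G v) (h v) := by
  refine Df.and ?_ ?_
  · refine Df.all (R := fun v a => K a → T v - a ∣ F v →
      ∃ b, K b ∧ T v - a ∣ h v - b ∧ T v - b ∣ G v) ?_
    refine Df.imp (df_K Tm.last) (Df.imp (Df.dvd (hT.weak.sub Tm.last) hF.weak) ?_)
    refine Df.ex (R := fun v b => K b ∧ T (fun i => v (Sum.inl i)) - v (Sum.inr ()) ∣
      h (fun i => v (Sum.inl i)) - b ∧ T (fun i => v (Sum.inl i)) - b ∣
        G (fun i => v (Sum.inl i))) ?_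
    exact Df.and (df_K Tm.last) (Df.and (Df.dvd (hT.weak.weak.sub Tm.last.weak)
      (hh.weak.weak.sub Tm.last)) (Df.dvd (hT.weak.weak.sub Tm.last) hG.weak.weak))
  · refine Df.all (R := fun v b => K b → T v - b ∣ G v → ∃ a, K a ∧ T v - a ∣ F v ∧
      T v - a ∣ h v - b ∧ ∀ a', K a' → T v - a' ∣ F v → T v - a' ∣ h v - b → a' = a) ?_
    refine Df.imp (df_K Tm.last) (Df.imp (Df.dvd (hT.weak.sub Tm.last) hG.weak) ?_)
    refine Df.ex (R := fun v a => K a ∧ T (fun i => v (Sum.inl i)) - a ∣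
      F (fun i => v (Sum.inl i)) ∧ T (fun i => v (Sum.inl i)) - a ∣
        h (fun i => v (Sum.inl i)) - v (Sum.inr ()) ∧
        ∀ a', K a' → T (fun i => v (Sum.inl i)) - a' ∣ F (fun i => v (Sum.inl i)) →
          T (fun i => v (Sum.inl i)) - a' ∣ h (fun i => v (Sum.inl i)) - v (Sum.inr ()) →
          a' = a) ?_
    refine Df.and (df_K Tm.last) (Df.and (Df.dvd (hT.weak.weak.sub Tm.last) hF.weak.weak)
      (Df.and (Df.dvd (hT.weak.weak.sub Tm.last) (hh.weak.weak.sub Tm.last.weak)) ?_))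
    refine Df.all (R := fun v a' => K a' →
      T (fun i => v (Sum.inl (Sum.inl i))) - a' ∣ F (fun i => v (Sum.inl (Sum.inl i))) →
      T (fun i => v (Sum.inl (Sum.inl i))) - a' ∣ h (fun i => v (Sum.inl (Sum.inl i))) -
        v (Sum.inl (Sum.inr ())) → a' = v (Sum.inr ())) ?_
    exact Df.imp (df_K Tm.last) (Df.imp (Df.dvd (hT.weak.weak.weak.sub Tm.last) hF.weak.weak.weak)
      (Df.imp (Df.dvd (hT.weak.weak.weak.sub Tm.last) (hh.weak.weak.weak.sub Tm.last.weak.weak))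
        (Df.eq Tm.last Tm.last.weak)))

theorem df_E {f g : (Γ → k[X]) → k[X]} (hf : Tm Language.ring f) (hg : Tm Language.ring g) :
    Df Language.ring fun v => E (f v) (g v) := by
  refine Df.or (Df.and (Df.eq hf Tm.zero) (Df.eq hg Tm.zero)) (Df.or (Df.and (Df.unit hf)
    (Df.unit hg)) (Df.and (Df.and (Df.eq hf Tm.zero).not (Df.unit hf).not)
      (Df.and (Df.and (Df.eq hg Tm.zero).not (Df.unit hg).not) ?_)))
  refine Df.ex (R := fun v T => ∃ c d h, (¬ IsUnit T ∧ ∀ a b, T = a * b → IsUnit a ∨ IsUnit b) ∧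
    K c ∧ K d ∧ (∀ z, z * z ∣ f v + c → IsUnit z) ∧ (∀ z, z * z ∣ g v + d → IsUnit z) ∧
      Corr T (f v + c) (g v + d) h) ?_
  refine Df.ex (R := fun v c => ∃ d h, (¬ IsUnit (v (Sum.inr ())) ∧ ∀ a b,
      v (Sum.inr ()) = a * b → IsUnit a ∨ IsUnit b) ∧
    K c ∧ K d ∧ (∀ z, z * z ∣ f (fun i => v (Sum.inl i)) + c → IsUnit z) ∧
      (∀ z, z * z ∣ g (fun i => v (Sum.inl i)) + d → IsUnit z) ∧
      Corr (v (Sum.inr ())) (f (fun i => v (Sum.inl i)) + c) (g (fun i => v (Sum.inl i)) + d) h) ?_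
  refine Df.ex (R := fun v d => ∃ h, (¬ IsUnit (v (Sum.inl (Sum.inr ()))) ∧ ∀ a b,
      v (Sum.inl (Sum.inr ())) = a * b → IsUnit a ∨ IsUnit b) ∧
    K (v (Sum.inr ())) ∧ K d ∧
      (∀ z, z * z ∣ f (fun i => v (Sum.inl (Sum.inl i))) + v (Sum.inr ()) → IsUnit z) ∧
      (∀ z, z * z ∣ g (fun i => v (Sum.inl (Sum.inl i))) + d → IsUnit z) ∧
      Corr (v (Sum.inl (Sum.inr ()))) (f (fun i => v (Sum.inl (Sum.inl i))) + v (Sum.inr ()))
        (g (fun i => v (Sum.inl (Sum.inl i))) + d) h) ?_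
  refine Df.ex (R := fun v h => (¬ IsUnit (v (Sum.inl (Sum.inl (Sum.inr ())))) ∧ ∀ a b,
      v (Sum.inl (Sum.inl (Sum.inr ()))) = a * b → IsUnit a ∨ IsUnit b) ∧
    K (v (Sum.inl (Sum.inr ()))) ∧ K (v (Sum.inr ())) ∧
      (∀ z, z * z ∣ f (fun i => v (Sum.inl (Sum.inl (Sum.inl i)))) + v (Sum.inl (Sum.inr ())) →
        IsUnit z) ∧
      (∀ z, z * z ∣ g (fun i => v (Sum.inl (Sum.inl (Sum.inl i)))) + v (Sum.inr ()) →
        IsUnit z) ∧
      Corr (v (Sum.inl (Sum.inl (Sum.inr ()))))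
        (f (fun i => v (Sum.inl (Sum.inl (Sum.inl i)))) + v (Sum.inl (Sum.inr ())))
        (g (fun i => v (Sum.inl (Sum.inl (Sum.inl i)))) + v (Sum.inr ())) h) ?_
  have hT : Tm Language.ring
      fun v : (((Γ ⊕ Unit) ⊕ Unit) ⊕ Unit) ⊕ Unit → k[X] =>
        v (Sum.inl (Sum.inl (Sum.inl (Sum.inr ())))) := Tm.var _
  have hc : Tm Language.ring
      fun v : (((Γ ⊕ Unit) ⊕ Unit) ⊕ Unit) ⊕ Unit → k[X] =>
        v (Sum.inl (Sum.inl (Sum.inr ()))) := Tm.var _
  have hd : Tm Language.ring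
      fun v : (((Γ ⊕ Unit) ⊕ Unit) ⊕ Unit) ⊕ Unit → k[X] =>
        v (Sum.inl (Sum.inr ())) := Tm.var _
  have hh : Tm Language.ring
      fun v : (((Γ ⊕ Unit) ⊕ Unit) ⊕ Unit) ⊕ Unit → k[X] =>
        v (Sum.inr ()) := Tm.var _
  have hf' := hf.weak.weak.weak.weak
  have hg' := hg.weak.weak.weak.weak
  exact Df.and (df_irr hT) (Df.and (df_K hc) (Df.and (df_K hd) (Df.and (df_sqf (hf'.add hc))
    (Df.and (df_sqf (hg'.add hd)) (df_corr hT (hf'.add hc) (hg'.add hd) hh)))))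

theorem definable_eqDegree [IsAlgClosed k] [CharZero k] :
    (∅ : Set k[X]).Definable Language.ring
      {v : Fin 2 → k[X] | (v 0).degree = (v 1).degree} := by
  refine Df.definable ((df_E (Tm.var 0) (Tm.var 1)).of_iff fun v => ?_)
  exact E_iff _ _

end Pool.Agent.X223.EqDeg
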