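import Pool.Agent.Helper446.CB.FinDef

/-!
Finite classes and minimal classes in the lattice of `Π⁰₁` classes.
-/

set_option autoImplicit false

namespace Pool.Agent.X223.PiMin

open Pool.Agent.Helper446.CB Pool.Agent.Helper446.Defs FirstOrder

theorem finite_iff {P : Set (ℕ → Bool)} (hP : IsClosed P) : P.Finite ↔ deriv P = ∅ := by
  constructor
  · intro h
    by_contra hne
    obtain ⟨x, hx, hx2⟩ := Set.nonempty_iff_ne_empty.2 hne
    refine hx2 ((P \ {x})ᶜ) (h.subset Set.sdiff_subset).isClosed.isOpen_compl ?_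
    ext y
    constructor
    · rintro ⟨h1, h2⟩
      by_contra h3
      exact h1 ⟨h2, h3⟩
    · intro hy
      rw [Set.mem_singleton_iff] at hy
      subst hy
      exact ⟨fun h4 => h4.2 rfl, hx⟩
  · intro h
    have hc : IsCompact P := hP.isCompact
    have hd : DiscreteTopology P := by
      rw [discreteTopology_iff_isOpen_singleton]
      rintro ⟨x, hx⟩
      have h1 : x ∉ deriv P := by rw [h]; exact fun h => h
      have h2 : ¬ ∀ U : Set (ℕ → Bool), IsOpen U → U ∩ P ≠ {x} := fun h3 => h1 ⟨hx, h3⟩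
      push Not at h2
      obtain ⟨U, hU, hUP⟩ := h2
      refine ⟨U, hU, ?_⟩
      ext ⟨y, hy⟩
      simp only [Set.mem_preimage, Set.mem_singleton_iff, Subtype.mk.injEq]
      constructor
      · intro hyU
        have : y ∈ U ∩ P := ⟨hyU, hy⟩
        rw [hUP] at this
        exact this
      · rintro rfl
        have : y ∈ U ∩ P := by rw [hUP]; rfl
        exact this.1
    exact hc.finite ⟨hd⟩

theorem def_finite : Def1 fun F => F.1.Finite := by
  intro Γ i
  refine (def_null 1 i).of_iff fun v => ?_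
  show cb (v i).1 ((1 : ℕ) : Ordinal.{0}) = ∅ ↔ (v i).1.Finite
  rw [finite_iff (IsPi01.isClosed (v i).2), Nat.cast_one, cb_one]

/-- A difference of closed sets which is finite is the trace of a clopen set. -/
theorem exists_clopen {P Q : Set (ℕ → Bool)} (hQ : IsClosed Q) (h : (P \ Q).Finite) :
    ∃ U : Set (ℕ → Bool), IsClopen U ∧ P ∩ U = P \ Q := by
  have h1 : IsCompact (P \ Q) := h.isCompact
  have h2 : P \ Q ⊆ Qᶜ := fun x hx => hx.2
  obtain ⟨U, hU, h3, h4⟩ := exists_clopen_of_closed_subset_open h.isClosed hQ.isOpen_compl h2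
  refine ⟨U, hU, ?_⟩
  ext x
  constructor
  · rintro ⟨h5, h6⟩
    exact ⟨h5, h4 h6⟩
  · intro h5
    exact ⟨h5.1, h3 h5⟩

/-- `P` is a minimal class: it is infinite, and every subclass is finite or cofinite in it. -/
def IsMin (P : EPi) : Prop :=
  P.1.Infinite ∧ ∀ Q : EPi, Q.1 ⊆ P.1 → Q.1.Finite ∨ (P.1 \ Q.1).Finite

theorem isMin_iff (P : EPi) : IsMin P ↔ ¬ P.1.Finite ∧ ∀ Q : EPi, Q ≤ P → Q.1.Finite ∨
    ∃ F : EPi, F.1.Finite ∧ ∀ X : EPi, Q ≤ X → F ≤ X → P ≤ X := by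
  refine and_congr Iff.rfl (forall_congr' fun Q => imp_congr Iff.rfl (or_congr Iff.rfl ?_))
  constructor
  · intro h
    obtain ⟨U, hU, hPU⟩ := exists_clopen (IsPi01.isClosed Q.2) h
    refine ⟨⟨P.1 ∩ U, IsPi01.inter P.2 (IsPi01.of_clopen hU)⟩, ?_, fun X h1 h2 x hx => ?_⟩
    · show (P.1 ∩ U).Finite
      rw [hPU]
      exact h
    · by_cases hxQ : x ∈ Q.1
      · exact h1 hxQ
      · refine h2 ?_
        show x ∈ P.1 ∩ U
        rw [hPU]
        exact ⟨hx, hxQ⟩
  · rintro ⟨F, hF, h⟩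
    have h1 := h ⟨Q.1 ∪ F.1, IsPi01.union Q.2 F.2⟩ Set.subset_union_left Set.subset_union_right
    refine hF.subset fun x hx => ?_
    rcases h1 hx.1 with h2 | h2
    · exact (hx.2 h2).elim
    · exact h2

theorem def_min : Def1 IsMin := by
  intro Γ i
  refine DefP.of_iff (DefP.and (def_finite i).not (DefP.all
    (R := fun v (Q : EPi) => Q ≤ v i → Q.1.Finite ∨
      ∃ F : EPi, F.1.Finite ∧ ∀ X : EPi, Q ≤ X → F ≤ X → v i ≤ X) ?_))
    fun v => (isMin_iff (v i)).symm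
  refine (DefP.le _ _).imp ((def_finite _).or ?_)
  refine DefP.ex (R := fun (v : Γ ⊕ Unit → EPi) (F : EPi) => F.1.Finite ∧
    ∀ X : EPi, v (Sum.inr ()) ≤ X → F ≤ X → v (Sum.inl i) ≤ X) ?_
  refine (def_finite _).and ?_
  refine DefP.all (R := fun (v : (Γ ⊕ Unit) ⊕ Unit → EPi) (X : EPi) =>
    v (Sum.inl (Sum.inr ())) ≤ X → v (Sum.inr ()) ≤ X → v (Sum.inl (Sum.inl i)) ≤ X) ?_
  exact (DefP.le _ _).imp ((DefP.le _ _).imp (DefP.le _ _))

end Pool.Agent.X223.PiMin
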